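import Pool.Agent.Run7.h15.AS.Diag

/-!
# MP_12a1af_nt, Q1: few representations everywhere, and almost all scales covered completely

`rep A n` is the number `r_A(n)` of ordered pairs `(a, b) ∈ A × A` with `a + b = n`. The scale `k` is
*missed* if some `n` in the dyadic interval `[2 ^ k, 2 ^ (k + 1))` is not in `A + A`, and
`missed A K` is the number of missed scales below `K`.

**Theorem.** (1) Let `0 < δ < 1` and `η > 0`. There is a set `A` with
`r_A(n) ≤ C (log n) ^ (δ + η)` for **all** `n ≥ 3`, and all but `C K ^ (1 - δ)` of the first `K`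
scales are covered completely by `A + A`, for all `K`.

(2) There is a set `A` with `r_A(n) = (log n) ^ o(1)` for all `n`, such that `A + A` contains every
integer of almost every scale: `missed A K = o(K)`.

So an asymptotic basis on a set of scales of density one can have a representation function smaller
than every power of `log n`, uniformly for all `n`. (The thinnest known bases, covering all scales,
have `r_A(n) ≤ C log n / log log n`; see `SparseBasis`.)

Proof. Induction on the length of the windows. If `S` is one of the random blocks of the starting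
files `Pool.Agent.H125R2.ET`, for a prime `p`, and `B` is a set already constructed, the wide block
consists of the numbers `s + p ^ 8 b`, `s ∈ S`, `b ∈ B`, `b < 2 ^ u`. It covers the numbers near
`p ^ 8 x` if `x - 11` is in `B + B`, and the number of the representations inside of the block is
bounded by a constant times the one of `B`. Between the blocks (at `log p ≈ κ`) there are gaps of
logarithmic length `γ`, and therefore, by an exponential moment bound, a number has only `O(κ / γ)`
representations with summands from different blocks. The wide blocks and this estimate are in the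
starting files `Pool.Agent.Helper667_AS`; new here are the induction with `κ = x ^ (f + q + 1)`,
`γ = x ^ f` (part 1) and, for part 2, geometric windows with gaps of relative size tending to zero
and sets `B` with slowly improving exponents.
-/

set_option autoImplicit false

namespace Pool.Agent.Results.MP_12a1af_nt.AlmostAllScales

/-- `rep A n = r_A(n)`: the number of ordered pairs `(a, b)` of elements of `A` with `a + b = n` -/
noncomputable def rep (A : Set ℕ) (n : ℕ) : ℕ :=
  {x : ℕ × ℕ | x.1 ∈ A ∧ x.2 ∈ A ∧ x.1 + x.2 = n}.ncard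

/-- `missed A K`: the number of the `k < K` such that some `n` with `2 ^ k ≤ n < 2 ^ (k + 1)` is not
the sum of two elements of `A` -/
noncomputable def missed (A : Set ℕ) (K : ℕ) : ℕ :=
  {k : ℕ | k < K ∧ ∃ n : ℕ, 2 ^ k ≤ n ∧ n < 2 ^ (k + 1) ∧ ¬ ∃ a ∈ A, ∃ b ∈ A, a + b = n}.ncard

theorem missed_eq (A : Set ℕ) (K : ℕ) : missed A K = Pool.Agent.Helper667_AS.bc A K := by
  classical
  unfold missed Pool.Agent.Helper667_AS.bc
  rw [← Set.ncard_coe_finset]
  congr 1
  ext k
  rw [Finset.mem_coe, Finset.mem_filter, Finset.mem_range]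
  rfl

/-- **Main theorem.** (1) For `0 < δ < 1`, `η > 0` there is a set with
`r_A(n) ≤ C (log n) ^ (δ + η)` for all `n` and at most `C K ^ (1 - δ)` missed scales below `K`.
(2) There is a set with `r_A(n) ≤ C_ε (log n) ^ ε` for all `n` and all `ε > 0`, for which the
proportion of the missed scales tends to zero. -/
theorem result :
    (∀ δ η : ℝ, 0 < δ → δ < 1 → 0 < η → ∃ (A : Set ℕ) (C : ℝ),
      (∀ n : ℕ, 3 ≤ n → (rep A n : ℝ) ≤ C * (Real.log n) ^ (δ + η)) ∧
      (∀ K : ℕ, (missed A K : ℝ) ≤ C * (K : ℝ) ^ (1 - δ))) ∧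
    (∃ A : Set ℕ,
      (∀ ε : ℝ, 0 < ε → ∃ C : ℝ, ∀ n : ℕ, 3 ≤ n → (rep A n : ℝ) ≤ C * (Real.log n) ^ ε) ∧
      Filter.Tendsto (fun K : ℕ => (missed A K : ℝ) / K) Filter.atTop (nhds 0)) := by
  constructor
  · intro δ η hδ hδ1 hη
    obtain ⟨A, C, h1, h2⟩ := Pool.Agent.Run7.h15.AS.thin_sets δ η hδ hδ1 hη
    refine ⟨A, C, h1, fun K => ?_⟩
    rw [missed_eq]
    exact h2 K
  · obtain ⟨A, h1, h2⟩ := Pool.Agent.Run7.h15.AS.diag
    refine ⟨A, ?_, ?_⟩
    · intro ε hε
      obtain ⟨s, hs⟩ := exists_nat_gt (1 / ε)
      have hs0 : (0 : ℝ) < s := lt_trans (by positivity) hs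
      have hs1 : 1 ≤ s := by exact_mod_cast hs0
      have hεs : 1 ≤ ε * s := by
        rw [div_lt_iff₀ hε] at hs
        linarith
      obtain ⟨c, hc⟩ := h1 s hs1
      have c0 : (0 : ℝ) ≤ c := Nat.cast_nonneg _
      refine ⟨3 * c + 1, fun n hn => ?_⟩
      obtain ⟨g1, g2⟩ := Pool.Agent.Run7.h15.AS.logn_bounds hn
      have e1 : (rep A n : ℝ) ^ s ≤ c * ((Nat.log 2 n + 1 : ℕ) : ℝ) := by
        exact_mod_cast hc n
      have e2 : (rep A n : ℝ) ^ s ≤ (3 * c + 1) * Real.log n := by
        refine e1.trans ?_
        have := mul_le_mul_of_nonneg_left g2 c0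
        nlinarith
      have e3 : (3 * (c : ℝ) + 1) * Real.log n ≤ ((3 * c + 1) * (Real.log n) ^ ε) ^ s := by
        rw [mul_pow]
        refine mul_le_mul (le_self_pow₀ (by linarith) (by omega)) ?_ (by linarith) (by positivity)
        rw [← Real.rpow_natCast, ← Real.rpow_mul (by linarith)]
        calc Real.log n = Real.log n ^ (1 : ℝ) := (Real.rpow_one _).symm
          _ ≤ Real.log n ^ (ε * s) := Real.rpow_le_rpow_of_exponent_le g1 hεs
      exact le_of_pow_le_pow_left₀ (by omega) (by positivity) (e2.trans e3)
    · rw [Metric.tendsto_atTop]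
      intro ε hε
      obtain ⟨s, hs⟩ := exists_nat_gt (1 / ε)
      have hs0 : (0 : ℝ) < s := lt_trans (by positivity) hs
      have hs1 : 1 ≤ s := by exact_mod_cast hs0
      obtain ⟨N, hN⟩ := h2 s hs1
      refine ⟨N + 1, fun K hK => ?_⟩
      have hK0 : (0 : ℝ) < K := by
        have : 0 < K := by omega
        exact_mod_cast this
      have e1 : (s : ℝ) * (missed A K : ℝ) ≤ K := by
        rw [missed_eq]
        exact_mod_cast hN K (by omega)
      have e2 : (0 : ℝ) ≤ (missed A K : ℝ) / K := by positivity
      rw [Real.dist_eq, sub_zero, abs_of_nonneg e2, div_lt_iff₀ hK0]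
      rw [div_lt_iff₀ hε] at hs
      have e3 : (0 : ℝ) ≤ (missed A K : ℝ) := Nat.cast_nonneg _
      have e4 : (missed A K : ℝ) * 1 ≤ (missed A K : ℝ) * (s * ε) :=
        mul_le_mul_of_nonneg_left hs.le e3
      rcases e3.eq_or_lt with h0 | h0
      · rw [← h0]
        positivity
      · have e5 : (missed A K : ℝ) * 1 < (missed A K : ℝ) * (s * ε) :=
          mul_lt_mul_of_pos_left hs h0
        calc (missed A K : ℝ) = (missed A K : ℝ) * 1 := (mul_one _).symm
          _ < (missed A K : ℝ) * (s * ε) := e5
          _ = ε * (s * missed A K) := by ring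
          _ ≤ ε * K := mul_le_mul_of_nonneg_left e1 hε.le

end Pool.Agent.Results.MP_12a1af_nt.AlmostAllScales
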