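import Pool.Agent.Run7.h247.Dig.Conv2
import Pool.Agent.Run7.h247.Dig.MeasureConv

/-!
# MP_12a1af_nt: the growth of additive bases of order two, and the self convolution of measures

`rep A n` is the number `r_A(n)` of ordered pairs `(a, b) ∈ A × A` with `a + b = n`.

(1) Let `μ` be a probability measure on `[0, 1]` with `μ * μ ≥ t * (Lebesgue measure)` on `[0, 1]`.
Then `t < 625 / 722 = 0.8657`. (For `dx / (2 √x)` one has `t = π / 4 = 0.7854`.)

(2) Let `h ≥ 1`. There are `δ > 0` and `n₀` such that for all `n ≥ n₀` and all sets `A` of natural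
numbers with `r_A(m) ≥ 2 h - 1` for all but at most `δ n` of the `m ≤ n` the set `A ∩ [0, n]` has at
least `1.52 √(h n)` elements.

(3) If `r_A(m) ≥ 2 h - 1` for all `m` outside a set of density zero (for instance for all large
`m`), then `|A ∩ [0, n]| ≥ 1.52 √(h n)` for all large `n`, and `a_k ≤ (625 / 1444) k² / h` for all
large `k`, where `a_1 < a_2 < ...` are the elements of `A`. Here `625 / 1444 = 0.4328...`.

The certificate for `625 / 722` is due to helper409 (`Run7.h409.Dig.D12`, used there for the digits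
of `√2`): the first twelve moments `∫ e^{π i k x} dμ` of such a measure do not exist, by a tree of
cuts with positive trigonometric polynomials at the leaves, checked in integer arithmetic.
-/

set_option autoImplicit false

open Finset MeasureTheory

namespace Pool.Agent.Results.MP_12a1af_nt.BasisGrowth

/-- `r_A(n)`: the number of ordered pairs of elements of `A` with sum `n` -/
noncomputable def rep (A : Set ℕ) (n : ℕ) : ℕ :=
  {p : ℕ × ℕ | p.1 ∈ A ∧ p.2 ∈ A ∧ p.1 + p.2 = n}.ncard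

/-- the number of elements of `A` in `[0, n]` -/
noncomputable def cnt (A : Set ℕ) (n : ℕ) : ℕ := (A ∩ Set.Iic n).ncard

/-- the number of `m ≤ n` with `r_A(m) < 2 h - 1` -/
noncomputable def few (A : Set ℕ) (h n : ℕ) : ℕ := {m : ℕ | m ≤ n ∧ rep A m < 2 * h - 1}.ncard

open Pool.Agent.Run7.H247.Dig in
lemma core {h : ℕ} (hh : 1 ≤ h) : ∃ δ : ℝ, 0 < δ ∧ ∃ n₀ : ℕ, ∀ n : ℕ, n₀ ≤ n → ∀ A : Set ℕ,
    (few A h n : ℝ) ≤ δ * n → 38 / 25 * Real.sqrt (h * n) ≤ cnt A n := by
  classical
  obtain ⟨δ, hδ, n0, h0⟩ := growth hh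
  refine ⟨δ, hδ, n0, fun n hn A hA => ?_⟩
  have hfin : (A ∩ Set.Iic n).Finite := (Set.finite_Iic n).subset Set.inter_subset_right
  set S : Finset ℕ := hfin.toFinset with hS
  have hmem : ∀ x, x ∈ S ↔ x ∈ A ∧ x ≤ n := fun x => by
    rw [hS, Set.Finite.mem_toFinset, Set.mem_inter_iff, Set.mem_Iic]
  have hcard : S.card = cnt A n := by
    unfold cnt
    rw [Set.ncard_eq_toFinset_card _ hfin]
  have hsub : S ⊆ range (n + 1) := fun x hx => by
    have := (hmem x).mp hx
    exact mem_range.mpr (by omega)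
  have hrep : ∀ m, m ≤ n → rS S m = rep A m := by
    intro m hm
    unfold rS rep
    rw [← Set.ncard_coe_finset]
    congr 1
    ext q
    simp only [coe_filter, mem_product, hmem, Set.mem_ofPred_eq]
    constructor
    · rintro ⟨⟨⟨h1, _⟩, h2, _⟩, h3⟩; exact ⟨h1, h2, h3⟩
    · rintro ⟨h1, h2, h3⟩; exact ⟨⟨⟨h1, by omega⟩, h2, by omega⟩, h3⟩
  have hfew : ((range n).filter fun m => rS S m < 2 * h - 1).card ≤ few A h n := by
    unfold few
    rw [← Set.ncard_coe_finset]
    apply Set.ncard_le_ncard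
    · intro m hm
      simp only [coe_filter, mem_range, Set.mem_ofPred_eq] at hm ⊢
      rw [hrep m (by omega)] at hm
      exact ⟨by omega, hm.2⟩
    · exact (Set.finite_Iic n).subset fun m hm => by
        simp only [Set.mem_ofPred_eq] at hm
        exact hm.1
  have hfewR : (((range n).filter fun m => rS S m < 2 * h - 1).card : ℝ) ≤ δ * n :=
    le_trans (by exact_mod_cast hfew) hA
  have h1 := h0 n hn S hsub hfewR
  rw [hcard] at h1
  have h2 : (38 / 25 * Real.sqrt (h * n)) ^ 2 ≤ (cnt A n : ℝ) ^ 2 := by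
    rw [mul_pow, Real.sq_sqrt (by positivity)]
    linarith
  exact (pow_le_pow_iff_left₀ (by positivity) (Nat.cast_nonneg _) two_ne_zero).mp h2

theorem result :
    (∀ (μ : Measure ℝ) [IsProbabilityMeasure μ], μ (Set.Icc (0 : ℝ) 1)ᶜ = 0 → ∀ t : ℝ,
      (∀ B : Set ℝ, MeasurableSet B → B ⊆ Set.Icc 0 1 →
        ENNReal.ofReal t * volume B ≤ (μ.conv μ) B) → t < 625 / 722) ∧
    (∀ h : ℕ, 1 ≤ h → ∃ δ : ℝ, 0 < δ ∧ ∃ n₀ : ℕ, ∀ n : ℕ, n₀ ≤ n → ∀ A : Set ℕ,
      (few A h n : ℝ) ≤ δ * n → 38 / 25 * Real.sqrt (h * n) ≤ cnt A n) ∧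
    (∀ h : ℕ, 1 ≤ h → ∀ A : Set ℕ,
      (∀ ε : ℝ, 0 < ε → ∃ N : ℕ, ∀ n : ℕ, N ≤ n → (few A h n : ℝ) ≤ ε * n) →
      (∃ N : ℕ, ∀ n : ℕ, N ≤ n → 38 / 25 * Real.sqrt (h * n) ≤ cnt A n) ∧
      (∃ N : ℕ, ∀ k : ℕ, N ≤ k →
        (Nat.nth (fun a => a ∈ A) k : ℝ) ≤ 625 / 1444 * ((k : ℝ) + 1) ^ 2 / h)) := by
  refine ⟨?_, fun h hh => core hh, fun h hh A hA => ?_⟩
  · intro μ _ hμ t ht
    exact Pool.Agent.Run7.H247.Dig.measure_bound μ hμ t ht
  · have hhR : (0 : ℝ) < h := by exact_mod_cast hh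
    have hev : ∃ N : ℕ, ∀ n : ℕ, N ≤ n → 38 / 25 * Real.sqrt (h * n) ≤ cnt A n := by
      obtain ⟨δ, hδ, n0, h0⟩ := core hh
      obtain ⟨N, hN⟩ := hA δ hδ
      exact ⟨max n0 N, fun n hn => h0 n ((le_max_left _ _).trans hn) A
        (hN n ((le_max_right _ _).trans hn))⟩
    refine ⟨hev, ?_⟩
    obtain ⟨N, hN⟩ := hev
    have hinf : (Set.ofPred fun a => a ∈ A).Infinite := by
      rw [Set.infinite_iff_exists_gt]
      intro b
      by_contra hcon
      push Not at hcon
      -- then the counting function is bounded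
      have hb : ∀ n, cnt A n ≤ b + 1 := by
        intro n
        unfold cnt
        have h1 : A ∩ Set.Iic n ⊆ (range (b + 1) : Finset ℕ) := by
          intro x hx
          rw [coe_range, Set.mem_Iio]
          have := hcon x hx.1
          omega
        have h2 := Set.ncard_le_ncard h1 (Finset.finite_toSet _)
        rwa [Set.ncard_coe_finset, card_range] at h2
      have h1 := hN (N + (b + 2) ^ 2) (by omega)
      have h2 : ((b : ℝ) + 2) ≤ Real.sqrt (h * ((N + (b + 2) ^ 2 : ℕ) : ℝ)) := by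
        apply Real.le_sqrt_of_sq_le
        push_cast
        have h3 : (1 : ℝ) ≤ h := by exact_mod_cast hh
        have h4 : (0 : ℝ) ≤ N := Nat.cast_nonneg _
        nlinarith [sq_nonneg ((b : ℝ) + 2)]
      have h3 : (cnt A (N + (b + 2) ^ 2) : ℝ) ≤ b + 1 := by exact_mod_cast hb _
      have h4 := Real.sqrt_nonneg (h * ((N + (b + 2) ^ 2 : ℕ) : ℝ))
      linarith
    refine ⟨N, fun k hk => ?_⟩
    set a := Nat.nth (fun a => a ∈ A) k with ha
    have hka : k ≤ a := (Nat.nth_strictMono hinf).le_apply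
    have h1 := hN a (hk.trans hka)
    have h2 : cnt A a = k + 1 := by
      classical
      unfold cnt
      have e : A ∩ Set.Iic a = ((range (a + 1)).filter (fun x => x ∈ A) : Finset ℕ) := by
        ext x
        simp only [Set.mem_inter_iff, Set.mem_Iic, coe_filter, mem_range, Set.mem_ofPred_eq]
        constructor
        · rintro ⟨h3, h4⟩; exact ⟨by omega, h3⟩
        · rintro ⟨h3, h4⟩; exact ⟨h4, by omega⟩
      rw [e, Set.ncard_coe_finset, ← Nat.count_eq_card_filter_range, ha,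
        Nat.count_succ, Nat.count_nth_of_infinite hinf, if_pos (Nat.nth_mem_of_infinite hinf k)]
    rw [h2] at h1
    push_cast at h1
    have h3 : (38 / 25 * Real.sqrt (h * a)) ^ 2 ≤ ((k : ℝ) + 1) ^ 2 :=
      pow_le_pow_left₀ (by positivity) h1 2
    rw [mul_pow, Real.sq_sqrt (by positivity)] at h3
    rw [le_div_iff₀ hhR]
    nlinarith

end Pool.Agent.Results.MP_12a1af_nt.BasisGrowth
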