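import Mathlib
import Pool.Agent.Run7.h129.Poly

set_option autoImplicit false

/-!
# MP_12a1af_nt: the Erdős–Turán conjecture fails in polynomial rings of characteristic two

Let `K` be a finite field of characteristic two.  In `K[X]` the size of a polynomial is its degree,
and a sum of two polynomials can be much smaller than its terms, whereas the terms of a sum of natural
numbers are at most the sum.  So the counterpart of the number `r_A(n)` is the number of the ordered
pairs `(a, b)` of elements of `A` with `a + b = f` and `deg a ≤ deg f`, `deg b ≤ deg f`.

We construct a set `A ⊆ K[X]` for which this number is at least one and at most a constant, for all
polynomials `f`.  So the counterpart of Q1 is false (and that of Q2 as well: such a set has at least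
`q ^ (n / 2)` elements of degree less than `n`, where `q = |K|`).  Hence no argument that applies to
polynomials over all finite fields in the same way as to integers can prove Q1.

Construction.  The digits in base `X ^ 8` form an additive group `Y`, which we identify with the
additive group of a field with `q ^ 8` elements.  The positions `0, ..., 4 I - 1` of the digits are
divided into the positions of the first kind (the positions `4 i + 1, 4 i + 2, 4 i + 3` with
`I / 3 < i < I`) and those of the second kind; the `j`-th position of the first kind is matched to the
`j`-th position of the second kind, which leaves at most six positions of the second kind.  An
element of `A` of degree `32 I + n'`, `0 ≤ n' ≤ 32`, has a nonzero digit at the position `4 I`, and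
its digit at the position of the second kind matched to a position `y` of the first kind with `y < 4 I`
is `l` times the digit at `y`, where the element `l` of the field depends on `I mod 3`, on `n'` and on
the leading coefficient, and is different for different values of these.  So the elements of one type
with fixed upper digits and fixed unmatched digits form a coset of a group `W`.
(a) Nonzero elements of `W` have the digit zero at the first position of their highest block (of four
positions); since this digit is nonzero in elements of `A`, for given `g` the elements `b` of `A` with
`g - b ∈ W` all have the same highest block.
(b) The groups of different types have trivial intersection.
(c) The sum of two groups of different types with the same `I` contains, up to the unmatched digits,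
everything below the position `4 I`.
Two elements of one type have the same leading term, so that their sum has a smaller degree; this is
the place where characteristic two is used.
-/

namespace Pool.Agent.Results.MP_12a1af_nt.CharTwoPolynomials

open Polynomial

/-- The ordered pairs `(a, b)` of elements of `A` with `a + b = f` whose degrees are at most the
degree of `f`. -/
def reps {K : Type*} [Field K] (A : Set K[X]) (f : K[X]) : Set (K[X] × K[X]) :=
  {z | z.1 ∈ A ∧ z.2 ∈ A ∧ z.1 + z.2 = f ∧ z.1.degree ≤ f.degree ∧ z.2.degree ≤ f.degree}

/-- For every finite field of characteristic two there is a set `A` of polynomials such that every
polynomial `f` has at least one and at most `C` representations `f = a + b` with `a, b ∈ A` of degree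
at most the degree of `f`. -/
theorem result (K : Type*) [Field K] [Finite K] [CharP K 2] :
    ∃ (A : Set K[X]) (C : ℕ), ∀ f : K[X], 1 ≤ (reps A f).encard ∧ (reps A f).encard ≤ C :=
  Pool.Agent.Run7.h129.FF.main K

end Pool.Agent.Results.MP_12a1af_nt.CharTwoPolynomials
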