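import Mathlib
import Pool.Agent.Run7.h129.Runs

/-!
# The Erdős–Turán problem (MP_12a1af_nt): sets which contain quadratic runs of length `x ^ (1/2 - o(1))`

`rep A s` is the number `r_A(s)` of ordered pairs `(a, b) ∈ A × A` with `a + b = s`.

1. Explicit bound for one run: let `A` contain distinct numbers `s x`, one for each of `H`
   consecutive integers `x`, within distance `T` of the values `α (2 a x + b) ^ 2 + δ` (`α`, `δ`
   real, `a ≥ 1` and `b` integers), and let `|2 a x + b| ≤ M`. If `4 (75 · 2 ^ k M) ^ k ≤ H ^ (k + 1)`,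
   then `2 ^ k ≤ (4 T + 1) r_A(n)` for some `n`.
2. The same for a polynomial of degree at most `D` with integer values: if `A ∩ [0, x]` contains,
   up to errors at most `G ≤ x`, its values at `ℓ` consecutive integers and `ℓ ^ (2 k + 1)` is at
   least `4 (2400 · 2 ^ k x) ^ k (2 (D + 2)) ^ (2 k + 1)`, then `2 ^ k ≤ (4 G + 1) r_A(n)` for some `n`.
3. So `r_A` is unbounded if, for every `ε > 0` and for arbitrarily large `x`, the set `A ∩ [0, x]`
   contains, up to errors at most `G`, such a run of length at least `x ^ (1 / 2 - ε)`.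
4. Sequences `a_0 < a_1 < …` with `a_n ≤ n² F n` which are, for infinitely many `n`, integral
   splines of degree at most `D` with at most `F n` pieces and errors at most `F n` on `[0, n)`,
   where `F x = exp (√(log x) / 10)`: here `r_A(s) ≥ F s` for infinitely many `s`.
5. Q1 and Q2 hold for all sequences which are, for every `ε > 0` and for infinitely many `n`,
   integral splines of degree at most `D` with at most `n ^ ε` pieces and errors at most `G` on
   `[0, n)`; in particular for all sequences whose `d`-th difference vanishes, for every `ε > 0` and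
   for infinitely many `n`, at all `k < n` with at most `n ^ ε` exceptions.

Method: `2 ^ k` lattice points on an arc of length about `M ^ (1 - 1 / (k + 1))` of a circle of
radius `M`, near the diagonal and in a given residue class; they are products of `k` Gaussian
integers or their conjugates, of the form `1 + 2 a t + 2 a i` with arguments in geometric progression.
-/

open Finset Filter Topology Real Polynomial

namespace Pool.Agent.Results.MP_12a1af_nt.QuadraticRuns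

/-- The number `r_A(s)` of ordered pairs `(a, b)` of elements of `A` with `a + b = s`. -/
noncomputable def rep (A : Set ℕ) (s : ℕ) : ℕ :=
  {p : ℕ × ℕ | p.1 ∈ A ∧ p.2 ∈ A ∧ p.1 + p.2 = s}.ncard

/-- `F x = exp (√(log x) / 10)`. -/
noncomputable def F (x : ℝ) : ℝ := exp (1 / 10 * √(log x))

/-- The terms `a k`, `k < n`, are up to an error `G` given by an integral spline of degree at most
`D` with at most `p` pieces: there are `q ≤ p` intervals `[c i, c (i + 1))` which make up `[0, n)`,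
and on each of them a polynomial of degree at most `D` with integer values which are within distance
`G` of the numbers `a k`. -/
def Spline (a : ℕ → ℕ) (D n : ℕ) (p G : ℝ) : Prop :=
  ∃ (q : ℕ) (c : ℕ → ℕ) (P : ℕ → ℝ[X]), (q : ℝ) ≤ p ∧ Monotone c ∧ c 0 = 0 ∧ c q = n ∧
    ∀ i < q, (P i).natDegree ≤ D ∧ ∀ k, c i ≤ k → k < c (i + 1) →
      (∃ z : ℤ, (P i).eval (k : ℝ) = z) ∧ |(a k : ℝ) - (P i).eval (k : ℝ)| ≤ G

/-- The `d`-th difference of the sequence `a` at `k`. -/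
def diff (d : ℕ) (a : ℕ → ℕ) (k : ℕ) : ℤ :=
  ∑ i ∈ range (d + 1), (-1) ^ (d - i) * (d.choose i : ℤ) * (a (k + i) : ℤ)

open Classical in
theorem result :
    -- 1. one run of a square progression
    (∀ (A : Set ℕ) (k : ℕ) (a b m : ℤ) (H : ℕ) (M α δ T : ℝ) (s : ℤ → ℕ), 1 ≤ a → 0 ≤ T →
      1 ≤ H → (H : ℝ) ≤ M → Set.InjOn s (Set.Ico m (m + H)) →
      (∀ x : ℤ, m ≤ x → x < m + H → s x ∈ A ∧ |(2 * a * x + b : ℝ)| ≤ M ∧
        |(s x : ℝ) - (α * (2 * a * x + b) ^ 2 + δ)| ≤ T) →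
      4 * (75 * 2 ^ k * M) ^ k ≤ (H : ℝ) ^ (k + 1) →
      ∃ n : ℕ, (2 : ℝ) ^ k ≤ (4 * T + 1) * rep A n) ∧
    -- 2. one run of an integral polynomial
    (∀ (A : Set ℕ) (k D : ℕ) (P : ℝ[X]) (ℓ : ℕ) (s : ℕ → ℕ) (x G : ℝ), 1 ≤ k →
      P.natDegree ≤ D → 0 ≤ G → G ≤ x → 1 ≤ x → Set.InjOn s (Set.Iio ℓ) →
      (∀ t < ℓ, s t ∈ A ∧ (s t : ℝ) ≤ x ∧ (∃ z : ℤ, P.eval (t : ℝ) = z) ∧
        |(s t : ℝ) - P.eval (t : ℝ)| ≤ G) →
      4 * (2400 * 2 ^ k * x) ^ k * (2 * (D + 2)) ^ (2 * k + 1) ≤ (ℓ : ℝ) ^ (2 * k + 1) →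
      ∃ n : ℕ, (2 : ℝ) ^ k ≤ (4 * G + 1) * rep A n) ∧
    -- 3. runs of length `x ^ (1 / 2 - o(1))`
    (∀ (A : Set ℕ) (D : ℕ) (G : ℝ),
      (∀ ε : ℝ, 0 < ε → ∃ᶠ x : ℕ in atTop, ∃ (P : ℝ[X]) (ℓ : ℕ) (s : ℕ → ℕ),
        P.natDegree ≤ D ∧ (x : ℝ) ^ (1 / 2 - ε) ≤ ℓ ∧ Set.InjOn s (Set.Iio ℓ) ∧
        ∀ t < ℓ, s t ∈ A ∧ s t ≤ x ∧ (∃ z : ℤ, P.eval (t : ℝ) = z) ∧
          |(s t : ℝ) - P.eval (t : ℝ)| ≤ G) →
      ∀ K : ℕ, ∃ n : ℕ, K < rep A n) ∧
    -- 4. integral splines with at most `F n` pieces and errors at most `F n`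
    (∀ a : ℕ → ℕ, StrictMono a → ∀ D : ℕ,
      (∃ᶠ n : ℕ in atTop, (a n : ℝ) ≤ n ^ 2 * F n ∧ Spline a D n (F n) (F n)) →
      ∃ᶠ s : ℕ in atTop, F s ≤ rep (Set.range a) s) ∧
    -- 5. the two questions for integral splines with `n ^ o(1)` pieces, and for sequences whose
    -- `d`-th difference vanishes with `n ^ o(1)` exceptions
    (∀ a : ℕ → ℕ, StrictMono a →
      ((∀ᶠ s : ℕ in atTop, 1 ≤ rep (Set.range a) s) ∨
        ∃ C : ℝ, ∀ n : ℕ, (a n : ℝ) ≤ C * ((n : ℝ) + 1) ^ 2) →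
      ((∃ (D : ℕ) (G : ℝ), ∀ ε : ℝ, 0 < ε → ∃ᶠ n : ℕ in atTop, Spline a D n ((n : ℝ) ^ ε) G) ∨
        ∃ d ≥ 1, ∀ ε : ℝ, 0 < ε → ∃ᶠ n : ℕ in atTop,
          (((range n).filter (fun k => diff d a k ≠ 0)).card : ℝ) ≤ (n : ℝ) ^ ε) →
      ∀ K : ℕ, ∃ s : ℕ, K < rep (Set.range a) s) := by
  refine ⟨fun A k a b m H M α δ T s ha hT hH hMH hinj hs hcond => ?_,
    fun A k D P ℓ s x G hk hD hG hGx hx hinj hs hcond => ?_,
    fun A D G h K => ?_, fun a ha D h => ?_, fun a ha hgr hsp K => ?_⟩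
  · exact Pool.Agent.Run7.h129.Arc.run A k a b m H M α δ T s ha hT hMH hH
      (fun x h1 h2 => (hs x h1 h2).2.1) (fun x h1 h2 => (hs x h1 h2).1) hinj
      (fun x h1 h2 => (hs x h1 h2).2.2) hcond
  · exact Pool.Agent.Run7.h129.Arc.one_run A k D P ℓ s x G hk hD hG hGx hx hinj hs hcond
  · exact Pool.Agent.Run7.h129.Arc.runs_unbounded A D G h K
  · exact Pool.Agent.Run7.h129.Arc.spline_F a ha D h
  · obtain ⟨C, hC⟩ : ∃ C : ℝ, ∀ᶠ n : ℕ in atTop, (a n : ℝ) ≤ C * n ^ 2 := by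
      rcases hgr with h | ⟨C, hC⟩
      · exact ⟨2, Pool.Agent.Run7.h129.Arc.basis_growth' a ha h⟩
      · refine ⟨4 * |C|, ?_⟩
        filter_upwards [eventually_ge_atTop 1] with n h2
        have h3 : (1 : ℝ) ≤ n := by exact_mod_cast h2
        have h4 : ((n : ℝ) + 1) ^ 2 ≤ 4 * n ^ 2 := by nlinarith
        calc (a n : ℝ) ≤ C * ((n : ℝ) + 1) ^ 2 := hC n
          _ ≤ |C| * ((n : ℝ) + 1) ^ 2 := mul_le_mul_of_nonneg_right (le_abs_self C) (by positivity)
          _ ≤ |C| * (4 * n ^ 2) := mul_le_mul_of_nonneg_left h4 (abs_nonneg C)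
          _ = 4 * |C| * n ^ 2 := by ring
    rcases hsp with ⟨D, G, h⟩ | ⟨d, hd, h⟩
    · exact Pool.Agent.Run7.h129.Arc.unbounded a ha C hC D G h K
    · exact Pool.Agent.Run7.h129.Arc.unbounded_diff a ha C hC d hd h K

end Pool.Agent.Results.MP_12a1af_nt.QuadraticRuns
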